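import Pool.Agent.Helper70.ML.St3

set_option autoImplicit false

namespace Pool.Agent.Helper10.ML

open Pool.Agent.Helper70.ML Pool.Agent.Helper75.MX

/-- elements of order two in the kernel are trivial -/
lemma psta_sq {G H : Type} [Group G] [Group H] (φ : G →* H) (ho : Odd (Nat.card φ.ker)) {z : G}
    (hz : z ∈ φ.ker) (h2 : z * z = 1) : z = 1 := by
  have h1 : orderOf (⟨z, hz⟩ : φ.ker) ∣ 2 :=
    orderOf_dvd_of_pow_eq_one (Subtype.ext (by simpa [pow_two] using h2))
  have h3 : orderOf (⟨z, hz⟩ : φ.ker) ∣ Nat.card φ.ker := orderOf_dvd_natCard _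
  have h4 : Nat.Coprime 2 (Nat.card φ.ker) := (Nat.coprime_two_left).2 ho
  have h5 : orderOf (⟨z, hz⟩ : φ.ker) = 1 := Nat.eq_one_of_dvd_coprimes h4 h1 h3
  exact congrArg Subtype.val (orderOf_eq_one_iff.1 h5)

/-- kernel elements are central -/
lemma psta_cen {G H : Type} [Group G] [Group H] (φ : G →* H) (hc : φ.ker ≤ Subgroup.center G) {z : G}
    (hz : z ∈ φ.ker) (g : G) : g * z = z * g :=
  Subgroup.mem_center_iff.1 (hc hz) g

/-- commuting images, one inverted and the other one fixed -/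
lemma psta_A {G H : Type} [Group G] [Group H] (φ : G →* H) (hc : φ.ker ≤ Subgroup.center G)
    (ho : Odd (Nat.card φ.ker)) {d x y : G} (hxy : φ x * φ y = φ y * φ x)
    (hx : d * x * d⁻¹ = x⁻¹) (hy : d * y * d⁻¹ = y) : x * y = y * x := by
  set c := x * y * x⁻¹ * y⁻¹ with hcd
  have hk : c ∈ φ.ker := by
    rw [MonoidHom.mem_ker, hcd, map_mul, map_mul, map_mul, hxy, map_inv, map_inv]
    group
  have h1 : d * c * d⁻¹ = c := by
    rw [psta_cen φ hc hk d]
    group
  have h2 : d * c * d⁻¹ = x⁻¹ * y * x * y⁻¹ := by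
    have : d * c * d⁻¹ = (d * x * d⁻¹) * (d * y * d⁻¹) * (d * x * d⁻¹)⁻¹ * (d * y * d⁻¹)⁻¹ := by
      rw [hcd]
      group
    rw [this, hx, hy]
    group
  have h3 : x * c * x⁻¹ = c := by
    rw [psta_cen φ hc hk x]
    group
  have h4 : c * c = 1 := by
    have h5 : c = c⁻¹ := by
      calc c = x * c * x⁻¹ := h3.symm
        _ = x * (x⁻¹ * y * x * y⁻¹) * x⁻¹ := by rw [← h2, h1]
        _ = c⁻¹ := by
          rw [hcd]
          group
    calc c * c = c * c⁻¹ := by rw [← h5]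
      _ = 1 := mul_inv_cancel c
  have h6 : c = 1 := psta_sq φ ho hk h4
  have h7 : x * y = c * (y * x) := by
    rw [hcd]
    group
  rw [h7, h6, one_mul]

/-- two lifts inverted by the same element agree -/
lemma psta_B {G H : Type} [Group G] [Group H] (φ : G →* H) (hc : φ.ker ≤ Subgroup.center G)
    (ho : Odd (Nat.card φ.ker)) {d y z : G} (hyz : φ y = φ z)
    (hy : d * y * d⁻¹ = y⁻¹) (hz : d * z * d⁻¹ = z⁻¹) : y = z := by
  set c := z⁻¹ * y with hcd
  have hk : c ∈ φ.ker := by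
    rw [MonoidHom.mem_ker, hcd, map_mul, map_inv, hyz, inv_mul_cancel]
  have e1 : y = z * c := by
    rw [hcd]
    group
  have h1 : d * c * d⁻¹ = c := by
    rw [psta_cen φ hc hk d]
    group
  have h2 : z⁻¹ * c = c⁻¹ * z⁻¹ := by
    have h3 : d * y * d⁻¹ = z⁻¹ * c := by
      have : d * y * d⁻¹ = (d * z * d⁻¹) * (d * c * d⁻¹) := by
        rw [e1]
        group
      rw [this, hz, h1]
    have h4 : y⁻¹ = c⁻¹ * z⁻¹ := by
      rw [e1]
      group
    rw [← h3, hy, h4]
  have h5 : c * c = 1 := by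
    rw [psta_cen φ hc hk z⁻¹] at h2
    have h6 : c = c⁻¹ := mul_right_cancel h2
    calc c * c = c * c⁻¹ := by rw [← h6]
      _ = 1 := mul_inv_cancel c
  have h6 : c = 1 := psta_sq φ ho hk h5
  rw [e1, h6, mul_one]

/-- lifts of the sign matrices -/
lemma psta_D (hPMON : StPMON) {n : ℕ} {F : Type} [Field F] {E : Type} [Group E]
    {φ : E →* SLn n F} {X : Fin n → Fin n → F → E} (hX : Can φ X) (p q : Fin n) (hpq : p ≠ q) :
    ∃ d : E,
      (∀ i j a, i ≠ j → (i = p ∨ i = q) → j ≠ p → j ≠ q → d * X i j a * d⁻¹ = (X i j a)⁻¹) ∧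
      (∀ i j a, i ≠ j → i ≠ p → i ≠ q → (j = p ∨ j = q) → d * X i j a * d⁻¹ = (X i j a)⁻¹) ∧
      (∀ i j a, i ≠ j → (i = p ∨ i = q) → (j = p ∨ j = q) → d * X i j a * d⁻¹ = X i j a) := by
  classical
  obtain ⟨-, -, -, -, -, h6, -⟩ := hPMON n F
  set c : Fin n → F := fun k => (if k = p then -1 else 1) * (if k = q then -1 else 1) with hcd
  have hc : ∏ j, c j = 1 := by
    rw [hcd, Finset.prod_mul_distrib, Finset.prod_ite_eq', Finset.prod_ite_eq']
    simp
  obtain ⟨g, hg⟩ := h6 c hc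
  obtain ⟨d, hd⟩ := hX.ce.1 g
  have hd' : Mono (φ d) 1 c := by rw [hd]; exact hg
  have hE : ∀ i j a, i ≠ j → d * X i j a * d⁻¹ = X i j (c i * (c j)⁻¹ * a) := by
    intro i j a hij
    have := hX.eqv d 1 c hd' i j a hij
    simpa using this
  have c1 : ∀ k, (k = p ∨ k = q) → c k = -1 := by
    intro k hk
    rcases hk with hk | hk
    · rw [hcd]; simp only; rw [if_pos hk, if_neg (by rw [hk]; exact hpq), mul_one]
    · rw [hcd]; simp only; rw [if_pos hk, if_neg (by rw [hk]; exact hpq.symm), one_mul]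
  have c2 : ∀ k, k ≠ p → k ≠ q → c k = 1 := by
    intro k hk hk'
    rw [hcd]; simp only; rw [if_neg hk, if_neg hk', mul_one]
  refine ⟨d, ?_, ?_, ?_⟩
  · intro i j a hij hi hj hj'
    rw [hE i j a hij, c1 i hi, c2 j hj hj', ← hX.neg i j a hij]
    congr 1
    simp
  · intro i j a hij hi hi' hj
    rw [hE i j a hij, c2 i hi hi', c1 j hj, ← hX.neg i j a hij]
    congr 1
    simp [inv_neg]
  · intro i j a hij hi hj
    rw [hE i j a hij, c1 i hi, c1 j hj]
    congr 1
    simp [inv_neg]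

/-- a third index -/
lemma psta_third {n : ℕ} (hn : 3 ≤ n) (i j : Fin n) : ∃ k : Fin n, k ≠ i ∧ k ≠ j := by
  classical
  have h : ({i, j} : Finset (Fin n)).card < (Finset.univ : Finset (Fin n)).card := by
    rw [Finset.card_univ, Fintype.card_fin]
    exact lt_of_le_of_lt Finset.card_le_two (by omega)
  obtain ⟨k, -, hk⟩ := Finset.exists_mem_notMem_of_card_lt_card h
  refine ⟨k, ?_, ?_⟩
  · intro e
    exact hk (by rw [e]; simp)
  · intro e
    exact hk (by rw [e]; simp)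

/-- module PSTA -/
theorem hPSTA (hPMON : StPMON) (hPTVR : StPTVR) : StPSTA := by
  intro n F _ E _ _ φ X hn hX
  obtain ⟨t1, t2, t3, -, -⟩ := hPTVR n F
  have hce := hX.ce
  have hc : φ.ker ≤ Subgroup.center E := hce.2.1
  have ho : Odd (Nat.card φ.ker) := hce.2.2
  have r1 : ∀ i j l a b, i ≠ j → i ≠ l → j ≠ l → X i j a * X i l b = X i l b * X i j a := by
    intro i j l a b hij hil hjl
    obtain ⟨d, d1, -, d3⟩ := psta_D hPMON hX i l hil
    refine psta_A φ hc ho ?_ (d1 i j a hij (Or.inl rfl) hij.symm hjl)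
      (d3 i l b hil (Or.inl rfl) (Or.inr rfl))
    rw [hX.map i j a hij, hX.map i l b hil]
    exact t2 i j i l a b hij hil hij.symm hil
  have r2 : ∀ i j k a b, i ≠ j → k ≠ j → i ≠ k → X i j a * X k j b = X k j b * X i j a := by
    intro i j k a b hij hkj hik
    obtain ⟨d, -, d2, d3⟩ := psta_D hPMON hX j k hkj.symm
    refine psta_A φ hc ho ?_ (d2 i j a hij hij hik (Or.inl rfl))
      (d3 k j b hkj (Or.inr rfl) (Or.inl rfl))
    rw [hX.map i j a hij, hX.map k j b hkj]
    exact t2 i j k j a b hij hkj hkj.symm hij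
  have r3 : ∀ i j k a b, i ≠ j → j ≠ k → i ≠ k →
      X i j a * X j k b * (X i j a)⁻¹ * (X j k b)⁻¹ = X i k (a * b) := by
    intro i j k a b hij hjk hik
    obtain ⟨d, d1, -, d3⟩ := psta_D hPMON hX i j hij
    have hx : d * X i j a * d⁻¹ = X i j a := d3 i j a hij (Or.inl rfl) (Or.inr rfl)
    have hy : d * X j k b * d⁻¹ = (X j k b)⁻¹ := d1 j k b hjk (Or.inr rfl) hik.symm hjk.symm
    have hz : d * X i k (a * b) * d⁻¹ = (X i k (a * b))⁻¹ :=
      d1 i k (a * b) hik (Or.inl rfl) hik.symm hjk.symm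
    have hzy : X i k (a * b) * X j k b = X j k b * X i k (a * b) := r2 i k j (a * b) b hik hjk hij
    have himg : φ (X i j a * X j k b * (X i j a)⁻¹ * (X j k b)⁻¹) = φ (X i k (a * b)) := by
      rw [map_mul, map_mul, map_mul, map_inv, map_inv, hX.map i j a hij, hX.map j k b hjk,
        hX.map i k (a * b) hik]
      exact t3 i j k a b hij hjk hik
    generalize X i k (a * b) = z at *
    generalize X i j a = x at *
    generalize X j k b = y at *
    refine psta_B φ hc ho himg ?_ hz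
    set Y := x * y * x⁻¹ * y⁻¹ with hY
    have hk : z⁻¹ * Y ∈ φ.ker := by
      rw [MonoidHom.mem_ker, map_mul, map_inv, himg, inv_mul_cancel]
    have e1 : Y = z * (z⁻¹ * Y) := by group
    have hYy : Y * y = y * Y := by
      calc Y * y = z * (z⁻¹ * Y) * y := by rw [← e1]
        _ = z * ((z⁻¹ * Y) * y) := by rw [mul_assoc]
        _ = z * (y * (z⁻¹ * Y)) := by rw [psta_cen φ hc hk y]
        _ = z * y * (z⁻¹ * Y) := by rw [mul_assoc]
        _ = y * z * (z⁻¹ * Y) := by rw [hzy]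
        _ = y * Y := by group
    have e2 : d * Y * d⁻¹ = y⁻¹ * Y⁻¹ * y := by
      have : d * Y * d⁻¹ = (d * x * d⁻¹) * (d * y * d⁻¹) * (d * x * d⁻¹)⁻¹ * (d * y * d⁻¹)⁻¹ := by
        rw [hY]
        group
      rw [this, hx, hy, hY]
      group
    have e3 : Y⁻¹ * y = y * Y⁻¹ := by
      have : Commute Y y := hYy
      exact this.inv_left.eq
    rw [e2, mul_assoc, e3]
    group
  have r0 : ∀ i j a b, i ≠ j → Commute (X i j a) (X i j b) := by
    intro i j a b hij
    obtain ⟨k, hki, hkj⟩ := psta_third hn i j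
    have h3 := r3 i k j a 1 hki.symm hkj hij
    rw [mul_one] at h3
    have h1 : Commute (X i k a) (X i j b) := r1 i k j a b hki.symm hij hkj
    have h2 : Commute (X k j 1) (X i j b) := r2 k j i 1 b hkj hij hki
    rw [← h3]
    exact ((h1.mul_left h2).mul_left h1.inv_left).mul_left h2.inv_left
  refine ⟨r1, r2, r3, ?_⟩
  intro i j a b hij
  obtain ⟨k, hki, hkj⟩ := psta_third hn i j
  obtain ⟨d, d1, -, -⟩ := psta_D hPMON hX i k hki.symm
  have hx : d * X i j a * d⁻¹ = (X i j a)⁻¹ := d1 i j a hij (Or.inl rfl) hij.symm hkj.symm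
  have hy : d * X i j b * d⁻¹ = (X i j b)⁻¹ := d1 i j b hij (Or.inl rfl) hij.symm hkj.symm
  have hz : d * X i j (a + b) * d⁻¹ = (X i j (a + b))⁻¹ :=
    d1 i j (a + b) hij (Or.inl rfl) hij.symm hkj.symm
  refine psta_B φ hc ho ?_ ?_ hz
  · rw [map_mul, hX.map i j a hij, hX.map i j b hij, hX.map i j (a + b) hij]
    exact t1 i j a b hij
  · have : d * (X i j a * X i j b) * d⁻¹ = (d * X i j a * d⁻¹) * (d * X i j b * d⁻¹) := by group
    rw [this, hx, hy, ← mul_inv_rev, (r0 i j a b hij).eq]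

end Pool.Agent.Helper10.ML
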